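import Pool.Agent.Y462.EI.Stm

/-!
EI-COLH, EI-QH: HNN extensions as directed colimits; the quotient of an HNN extension by the kernel on
the base.
-/

set_option autoImplicit false
set_option linter.all false

namespace Pool.Agent.Y528.EI

open Pool.Agent.Y462.EI
open Pool.Agent.Y462.SS (Wr Closed)

/-- **EI-COLH** -/
theorem t_colh : S_COLH := by
  classical
  intro C hC M _ A B φ hF
  choose A' B' φ' hA hA' hφ' hC' using hF
  have mono : ∀ F F' : Finset A, F ≤ F' → A' F ≤ A' F' := by
    intro F F' h
    rw [hA', hA']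
    exact Subgroup.map_mono (Subgroup.closure_mono (by exact_mod_cast h))
  have rel : ∀ F F' : Finset A, ∀ h : F ≤ F', ∀ a : A' F,
      (HNNExtension.t : HNNExtension M (A' F') (B' F') (φ' F')) * HNNExtension.of (a : M) =
        HNNExtension.of (φ' F a : M) * HNNExtension.t := by
    intro F F' h a
    have h1 := HNNExtension.t_mul_of (φ := φ' F') ⟨(a : M), mono F F' h a.2⟩
    rw [h1]
    congr 2
    rw [hφ', hφ']
    rfl
  set f : ∀ F F' : Finset A, F ≤ F' →
      HNNExtension M (A' F) (B' F) (φ' F) →* HNNExtension M (A' F') (B' F') (φ' F') :=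
    fun F F' h => HNNExtension.lift HNNExtension.of HNNExtension.t (rel F F' h) with hf
  have relg : ∀ F : Finset A, ∀ a : A' F,
      (HNNExtension.t : HNNExtension M A B φ) * HNNExtension.of (a : M) =
        HNNExtension.of (φ' F a : M) * HNNExtension.t := by
    intro F a
    have h1 := HNNExtension.t_mul_of (φ := φ) (Subgroup.inclusion (hA F) a)
    rw [hφ']
    exact h1
  set g : ∀ F : Finset A, HNNExtension M (A' F) (B' F) (φ' F) →* HNNExtension M A B φ :=
    fun F => HNNExtension.lift HNNExtension.of HNNExtension.t (relg F) with hg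
  have hid : ∀ F (h : F ≤ F) x, f F F h x = x := by
    intro F h x
    have e : f F F h = MonoidHom.id _ := by
      apply HNNExtension.hom_ext
      · ext m
        simp [hf]
      · simp [hf]
    rw [e]
    rfl
  have hcomp : ∀ F F' F'' (h : F ≤ F') (h' : F' ≤ F'') x,
      f F' F'' h' (f F F' h x) = f F F'' (h.trans h') x := by
    intro F F' F'' h h' x
    have e : (f F' F'' h').comp (f F F' h) = f F F'' (h.trans h') := by
      apply HNNExtension.hom_ext
      · ext m
        simp [hf]
      · simp [hf]
    rw [← e]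
    rfl
  have hgf : ∀ F F' (h : F ≤ F') x, g F' (f F F' h x) = g F x := by
    intro F F' h x
    have e : (g F').comp (f F F' h) = g F := by
      apply HNNExtension.hom_ext
      · ext m
        simp [hf, hg]
      · simp [hf, hg]
    rw [← e]
    rfl
  refine hC.colim (Finset A) (fun F F' => ⟨F ∪ F', Finset.subset_union_left,
    Finset.subset_union_right⟩) (fun F => HNNExtension M (A' F) (B' F) (φ' F)) f
    (HNNExtension M A B φ) g hid hcomp hgf ?_ ?_ hC'
  · intro y
    refine ⟨∅, ?_⟩
    refine HNNExtension.induction_on y ?_ ?_ ?_ ?_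
    · intro m
      exact ⟨HNNExtension.of m, by simp [hg]⟩
    · exact ⟨HNNExtension.t, by simp [hg]⟩
    · rintro x y ⟨x', rfl⟩ ⟨y', rfl⟩
      exact ⟨x' * y', map_mul _ _ _⟩
    · rintro x ⟨x', rfl⟩
      exact ⟨x'⁻¹, map_inv _ _⟩
  · intro F x hx
    -- the elements which die at some later stage
    let N : Subgroup (HNNExtension M (A' F) (B' F) (φ' F)) :=
      { carrier := {y | ∃ (F' : Finset A) (h : F ≤ F'), f F F' h y = 1}
        one_mem' := ⟨F, le_rfl, map_one _⟩
        mul_mem' := by
          rintro y z ⟨F1, h1, e1⟩ ⟨F2, h2, e2⟩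
          refine ⟨F1 ∪ F2, h1.trans Finset.subset_union_left, ?_⟩
          rw [map_mul, ← hcomp F F1 _ h1 Finset.subset_union_left y,
            ← hcomp F F2 _ h2 Finset.subset_union_right z, e1, e2, map_one, map_one, mul_one]
        inv_mem' := by
          rintro y ⟨F1, h1, e1⟩
          exact ⟨F1, h1, by rw [map_inv, e1, inv_one]⟩ }
    have hN : N.Normal := by
      constructor
      rintro y ⟨F1, h1, e1⟩ z
      exact ⟨F1, h1, by rw [map_mul, map_mul, e1, mul_one, map_inv, mul_inv_cancel]⟩
    have relN : ∀ a : A, (QuotientGroup.mk' N HNNExtension.t) *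
        (QuotientGroup.mk' N).comp HNNExtension.of (a : M) =
        (QuotientGroup.mk' N).comp HNNExtension.of (φ a : M) *
          (QuotientGroup.mk' N HNNExtension.t) := by
      intro a
      rw [MonoidHom.comp_apply, MonoidHom.comp_apply, ← map_mul, ← map_mul]
      rw [QuotientGroup.mk'_apply, QuotientGroup.mk'_apply, QuotientGroup.eq]
      refine ⟨F ∪ {a}, Finset.subset_union_left, ?_⟩
      have ha : (a : M) ∈ A' (F ∪ {a}) := by
        rw [hA']
        refine ⟨a, Subgroup.subset_closure ?_, rfl⟩
        simp
      have h1 := HNNExtension.t_mul_of (φ := φ' (F ∪ {a})) ⟨(a : M), ha⟩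
      rw [hφ'] at h1
      simp only [hf, map_mul, map_inv, HNNExtension.lift_of, HNNExtension.lift_t]
      rw [inv_mul_eq_one]
      exact h1
    let ρ : HNNExtension M A B φ →* HNNExtension M (A' F) (B' F) (φ' F) ⧸ N :=
      HNNExtension.lift ((QuotientGroup.mk' N).comp HNNExtension.of)
        (QuotientGroup.mk' N HNNExtension.t) relN
    have hρ : ρ.comp (g F) = QuotientGroup.mk' N := by
      apply HNNExtension.hom_ext
      · ext m
        simp [ρ, hg]
      · simp [ρ, hg]
    have h2 : QuotientGroup.mk' N x = 1 := by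
      rw [← hρ, MonoidHom.comp_apply, hx, map_one]
    rw [QuotientGroup.mk'_apply, QuotientGroup.eq_one_iff] at h2
    exact h2

/-- **EI-QH** -/
theorem t_qh : S_QH := by
  classical
  intro M P _ _ A B φ f hf
  set k : M →* P := f.comp HNNExtension.of with hk
  set u : M →* k.range := k.rangeRestrict with hu
  have hu1 : ∀ m, u m = 1 ↔ f (HNNExtension.of m) = 1 := by
    intro m
    rw [← Subtype.val_inj]
    exact Iff.rfl
  have hAi : Function.Injective (u.comp A.subtype) := by
    rw [injective_iff_map_eq_one]
    intro a ha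
    have h1 := hf a a.2 ((hu1 _).1 ha)
    exact Subtype.ext h1
  have hBi : Function.Injective (u.comp B.subtype) := by
    rw [injective_iff_map_eq_one]
    intro b hb
    have h1 : f (HNNExtension.of (b : M)) = 1 := (hu1 _).1 hb
    obtain ⟨a, rfl⟩ := φ.surjective b
    have h2 := congrArg f (HNNExtension.t_mul_of (φ := φ) a)
    rw [map_mul, map_mul, h1, one_mul] at h2
    have h3 : f (HNNExtension.of (a : M)) = 1 := by
      exact mul_eq_left.1 h2
    have h4 : a = 1 := Subtype.ext (hf a a.2 h3)
    rw [h4, map_one]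
  set eA : A ≃* (u.comp A.subtype).range := MonoidHom.ofInjective hAi with heA
  set eB : B ≃* (u.comp B.subtype).range := MonoidHom.ofInjective hBi with heB
  have eA1 : ∀ a : A, ((eA a : (u.comp A.subtype).range) : k.range) = u (a : M) := fun a => rfl
  have eB1 : ∀ b : B, ((eB b : (u.comp B.subtype).range) : k.range) = u (b : M) := fun b => rfl
  set φ' : (u.comp A.subtype).range ≃* (u.comp B.subtype).range :=
    eA.symm.trans (φ.trans eB) with hφ'
  have hφ1 : ∀ a : A, φ' (eA a) = eB (φ a) := by
    intro a
    simp [hφ']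
  have relπ : ∀ a : A, (HNNExtension.t : HNNExtension k.range _ _ φ') *
      (HNNExtension.of.comp u) (a : M) = (HNNExtension.of.comp u) (φ a : M) * HNNExtension.t := by
    intro a
    have h1 := HNNExtension.t_mul_of (φ := φ') (eA a)
    rw [hφ1, eA1, eB1] at h1
    exact h1
  set π : HNNExtension M A B φ →* HNNExtension k.range _ _ φ' :=
    HNNExtension.lift (HNNExtension.of.comp u) HNNExtension.t relπ with hπ
  set N : Subgroup (HNNExtension M A B φ) :=
    Subgroup.normalClosure (HNNExtension.of '' (k.ker : Set M)) with hN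
  have hNπ : N ≤ π.ker := by
    rw [hN]
    apply Subgroup.normalClosure_le_normal
    rintro _ ⟨m, hm, rfl⟩
    have h1 : u m = 1 := (hu1 m).2 hm
    change π (HNNExtension.of m) = 1
    rw [hπ, HNNExtension.lift_of, MonoidHom.comp_apply, h1, map_one]
  have hv0 : u.ker ≤ ((QuotientGroup.mk' N).comp
      (HNNExtension.of : M →* HNNExtension M A B φ)).ker := by
    intro m hm
    rw [MonoidHom.mem_ker, MonoidHom.comp_apply, QuotientGroup.mk'_apply,
      QuotientGroup.eq_one_iff]
    exact Subgroup.subset_normalClosure ⟨m, (hu1 m).1 hm, rfl⟩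
  have husur : Function.Surjective u := k.rangeRestrict_surjective
  set v : k.range →* HNNExtension M A B φ ⧸ N := u.liftOfSurjective husur ⟨_, hv0⟩ with hv
  have hvu : ∀ m, v (u m) = QuotientGroup.mk' N (HNNExtension.of m) := by
    intro m
    exact MonoidHom.liftOfRightInverse_comp_apply u _ _ ⟨_, hv0⟩ m
  have rell : ∀ a' : (u.comp A.subtype).range, QuotientGroup.mk' N HNNExtension.t * v (a' : k.range) =
      v (φ' a' : k.range) * QuotientGroup.mk' N HNNExtension.t := by
    intro a'
    obtain ⟨a, rfl⟩ := eA.surjective a'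
    rw [hφ1, eA1, eB1, hvu, hvu, ← map_mul, ← map_mul, HNNExtension.t_mul_of]
  set l : HNNExtension k.range _ _ φ' →* HNNExtension M A B φ ⧸ N :=
    HNNExtension.lift v (QuotientGroup.mk' N HNNExtension.t) rell with hl
  have hlπ : l.comp π = QuotientGroup.mk' N := by
    apply HNNExtension.hom_ext
    · ext m
      rw [MonoidHom.comp_apply, MonoidHom.comp_apply, hπ, HNNExtension.lift_of,
        MonoidHom.comp_apply, hl, HNNExtension.lift_of, hvu]
      rfl
    · rw [MonoidHom.comp_apply, hπ, HNNExtension.lift_t, hl, HNNExtension.lift_t]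
  have relf : ∀ a' : (u.comp A.subtype).range, f HNNExtension.t * k.range.subtype (a' : k.range) =
      k.range.subtype (φ' a' : k.range) * f HNNExtension.t := by
    intro a'
    obtain ⟨a, rfl⟩ := eA.surjective a'
    rw [hφ1, eA1, eB1]
    have h1 := congrArg f (HNNExtension.t_mul_of (φ := φ) a)
    rw [map_mul, map_mul] at h1
    exact h1
  refine ⟨k.range, inferInstance, _, _, φ', QuotientGroup.lift N π hNπ,
    HNNExtension.lift k.range.subtype (f HNNExtension.t) relf, ?_, ?_⟩
  · have hinv : ∀ y : HNNExtension M A B φ ⧸ N, l (QuotientGroup.lift N π hNπ y) = y := by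
      intro y
      obtain ⟨x, rfl⟩ := QuotientGroup.mk'_surjective N y
      have h1 : (l.comp π) x = QuotientGroup.mk' N x := by rw [hlπ]
      exact h1
    exact Function.LeftInverse.injective hinv
  · have h1 : (HNNExtension.lift k.range.subtype (f HNNExtension.t) relf).comp HNNExtension.of =
        k.range.subtype := by
      ext m
      rw [MonoidHom.comp_apply, HNNExtension.lift_of]
    rw [h1]
    exact k.range.subtype_injective

end Pool.Agent.Y528.EI
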